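import Pool.Agent.Lib.MP_2b5695_lc.Nw.Easy

/-!
For every `i` and every oracle `A`: if every optimization problem `(C, ρ)` with `C` in `Π_i^p` is
computed by a type 1 counterexample computation with a `Σ_i^p` oracle (the negated form of Q1 for
`i`, relative to `A`), then every search problem of `Σ_{i+1}^p` is easy on average with advice: for
every relation `R (c, (z, y))` decidable in polynomial time with a `Σ_i^p` oracle there is a
polynomial time algorithm with a `Σ_i^p` oracle and with advice of polynomial length that finds `y`
with `R (c, (z, y))`, if there is one of length at most `p (|c| + n)`, for all but a fraction
`1 / t` of the words `z` of length `n`; the advice depends on `c`, `n` and `t` and its length is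
polynomial in `|c| + n + t`. So Q1 for `i = 0` holds if NP is hard on average for circuits of
polynomial size.

Idea of the proof for `i = 0`. An instance of the optimization problem is a table of `m n` rows of
bits. The positions are integer polynomials `p` of degree at most `L` with coefficients below `b`;
reading the rows at the values of `p` one gets `m` words of length `n`, the block of `p`. A solution
is a position `p` with answers `y` that solve at least `θ` of the `m` words of its block, where
`θ` is slightly less than the expected number of words that have solutions; its cost is the number
of the position. A computation that uses `q` steps, with an adversary that always returns the next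
solvable position, has to find a solution for the block of some position by itself if more than `q`
positions are solvable, and this happens for many tables, since the number `b ^ (L + 1)` of the
positions is larger than `4 t q`. (The number `L` is chosen after the computation is given; the
optimization problem does not depend on it.) One position `p` occurs for a fraction of the tables
that is at least the inverse of a polynomial. Now fix the table outside of the block of `p`. As two
different polynomials agree at most at `L` points, the block at another position depends on at most
`L` bits of the block of `p`, so a table of polynomial size with at most `2 ^ L` entries for each
position contains all answers of the adversary. Hence the computation can be simulated, with `z`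
in one of the `m` words of the block of `p`. If the words `z` for which the simulation succeeds
with negligible probability were a fraction of more than `1 / t`, then the computation would have
to solve `θ` of the `m` words although a word is good only with probability `θ / m - 1 / (2 t)`,
and by the bound for large deviations this is unlikely. Polynomially many tries cover all other
words.

For `i > 0`: the negated form of Q1 for `i` implies the negated form of Q1 for `0` relative to
`Σ_i^p` oracles, see `Pool.Agent.Lib.MP_2b5695_lc.Up.transfer`. The proof for `i = 0` relativizes.
-/

namespace Pool.Agent.Results.MP_2b5695_lc.AverageHardness

open Pool.Agent.Lib.MP_2b5695_lc.Alg
open Pool.Agent.Lib.MP_2b5695_lc.Nw (EasyOnAverage)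

theorem result {ι : Ty} (A : Set ι.El) (i : ℕ)
    (h : ∀ (C : ℕ → ℕ → Prop) (ρ : ℕ → ℕ), OptProblem A i C ρ → Computed A i C ρ)
    (κ : Ty) (B : Set κ.El) (hB : InSigma A i κ (fun q => q ∈ B))
    (R : List Bool × (List Bool × List Bool) → Bool)
    (hR : PF B (.prod .word (.prod .word .word)) .bool R) (p : Polynomial ℕ) :
    ∃ (κ' : Ty) (B' : Set κ'.El), InSigma A i κ' (fun q => q ∈ B') ∧ EasyOnAverage B' R p :=
  Pool.Agent.Lib.MP_2b5695_lc.Nw.easy_level h hB hR p

end Pool.Agent.Results.MP_2b5695_lc.AverageHardness
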