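import Pool.Agent.Lib.MP_2b5695_lc.Up.Levels

/-!
For every `i` and every oracle `A`: if every optimization problem `(C, ρ)` with `C` in `Π_i^p` is
computed by a type 1 counterexample computation with a `Σ_i^p` oracle (the negated form of Q1 for
`i`, relative to `A`), then there are no one-way functions relative to `Σ_i^p`, not even
auxiliary-input one-way functions: for every function `f (z, u)` computable in polynomial time with
a `Σ_i^p` oracle there is a randomized polynomial time algorithm with a `Σ_i^p` oracle that, for
every `z` and every `n`, inverts `f (z, u)` for random `u` of length `n` with probability at least
`1 / r(|z| + n)`, where `r` is a polynomial. In particular, Q1 for `i = 0` follows from the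
existence of one-way functions.

Idea of the proof for `i = 0` (the auxiliary input `z` is always part of the key). From `f` one
gets a function that shrinks its argument `X = (x_1, ..., x_t)` by one bit:
`F(X) = h (g f(x_1), ..., g f(x_t), G X)` with random matrices `g`, `G`, `h` over the field with two
elements. For some numbers of rows of `g` and `G` the value `F(X)` determines `X` up to arguments
`X'` with a block `x'_j` such that `g f(x'_j) = g f(x_j)` and `f(x'_j)` is another value with many
preimages; there are such blocks for which finding `x'_j` means inverting `f`, since a random value
`y` can be planted: change `g` such that `g y = g f(x_j)`. (This is the construction of universal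
one-way hash functions from one-way functions via inaccessible entropy.) The function `F`, applied
bit by bit with random masks that depend on the level, is the hash function of a Merkle tree; the
solutions of the optimization problem are the authentication paths, the cost is the number of the
leaf. A counterexample computation, simulated with a tree over random leaves in which always the
path to the next leaf is given as a counterexample, has to produce a second preimage at some step
of some node; the input of `F` at this place is random, and it can be planted by changing a mask.

For `i > 0`: the negated form of Q1 for `i` implies the negated form of Q1 for `0` relative to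
`Σ_i^p` oracles. Solutions are extended by tables of the oracle queries with positive answers and
witnesses; that the other queries have negative answers is a property in `Π_i^p`. The proof for
`i = 0` relativizes.
-/

namespace Pool.Agent.Results.MP_2b5695_lc.OneWayFunctions

open Pool.Agent.Lib.MP_2b5695_lc.Alg

theorem result {ι : Ty} (A : Set ι.El) (i : ℕ)
    (h : ∀ (C : ℕ → ℕ → Prop) (ρ : ℕ → ℕ), OptProblem A i C ρ → Computed A i C ρ)
    (κ : Ty) (B : Set κ.El) (hB : InSigma A i κ (fun q => q ∈ B))
    (f : List Bool × List Bool → List Bool) (hf : PF B (.prod .word .word) .word f) :
    ∃ (κ' : Ty) (B' : Set κ'.El), InSigma A i κ' (fun q => q ∈ B') ∧ Inverted B' f :=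
  Pool.Agent.Lib.MP_2b5695_lc.Up.inverted_level h hB hf

end Pool.Agent.Results.MP_2b5695_lc.OneWayFunctions
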