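import Pool.Agent.Lib.MP_2b5695_lc.Gv.FinalU

/-!
An oracle relative to which Q1 has a negative answer for `i = 0` and a positive answer for all
`i ≥ 1`.
-/

namespace Pool.Agent.Results.MP_2b5695_lc.OracleAboveZero

open Pool.Agent.Lib.MP_2b5695_lc

/-- There is an oracle `A` such that, relative to `A`, for every `i`: all optimization problems
with feasibility relation in `Π_i^p` are computed by type 1 counterexample computations with a
`Σ_i^p` oracle if and only if `i = 0`. -/
theorem result : ∃ A : Set (List Bool), ∀ i : ℕ,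
    (∀ (C : ℕ → ℕ → Prop) (ρ : ℕ → ℕ), OptProblem A i C ρ → Computed A i C ρ) ↔ i = 0 := by
  obtain ⟨A, h0, h1⟩ := Gv.exists_oracle_up
  refine ⟨A, fun i => ⟨fun h => ?_, ?_⟩⟩
  · by_contra hi
    obtain ⟨C, ρ, h2, h3⟩ := h1 i (by omega)
    exact h3 (h C ρ h2)
  · rintro rfl
    exact h0

end Pool.Agent.Results.MP_2b5695_lc.OracleAboveZero
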