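import Pool.Agent.Lib.MP_2b5695_lc.RO.All

/-!
With probability one, Q1 relative to a random oracle has a positive answer at all levels: if each
binary word is put into the oracle `A` with probability `1 / 2`, independently of the others, then
almost surely, for every `i`, there is an optimization problem `(C, ρ)` with `C` in `Π_i^p` that is
not computed by any type 1 counterexample computation with a `Σ_i^p` oracle (everything relative
to `A`). In particular the polynomial hierarchy relative to a random oracle is infinite.

Idea of the proof. By `Pool.Agent.Lib.MP_2b5695_lc.Nw.easy_level` it is enough to find, for almost
every `A` and every `i`, a relation `R` decidable in polynomial time with a `Σ_i^p` oracle such
that no polynomial time algorithm `D` with a `Σ_i^p` oracle and polynomial advice finds, for half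
of the words `z` of length `n`, a solution `y` of `R (c, (z, y))`. The relation says that the gate
`y z` of a tree of height `i + 1` is true. The gates at the bottom are true if `b = 8 β` bits of
the oracle are all zero, and the other gates are true if none of their `2 ^ k` children is true;
the numbers `k` are chosen (and written in `c`) such that the expected number of true children lies
between `8 β` and `16 β`. Let `t = 2 ^ (-β)`.

Random projections. We choose random restrictions of the oracle from the bottom to the top. Given
the restriction of the children, a gate none of whose children is known to be true and that has
`l ≥ 2 β 2 ^ β` free children becomes free itself with probability `(1 - t) ^ l / (2 t)`: a random
nonempty set `S` of free children is chosen (each child with probability `t`); all children in `S`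
get the negation of the value of the gate, the other children get the value false. Otherwise the
children get fixed values, with such probabilities that, if a free gate is true with probability
`t`, the values of the children are distributed as they should be. Then the oracle is random if
the free gates of any level are true with probability `t`, independently.

Switching lemma. A disjunction of decision trees of small depth in the values of the free gates of
one level becomes a decision tree of small depth in the free gates of the next level, except with
exponentially small probability; the proof encodes the bad restrictions. So after `i` steps the
algorithm `D`, for given advice, is a decision tree of polynomial depth `d` in the values of the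
free top gates. It finds `k` true free top gates with probability at most `((d + k) t) ^ k`. Given
the oracle, a true top gate is free with probability exactly `1 / 2`. So the probability that `D`
solves `k` given instances is at most `2 ^ k ((d + k) t) ^ k` plus a negligible term, and this is
so small that with high probability no advice of polynomial length helps `D` to solve as many as
`k` instances.
-/

namespace Pool.Agent.Results.MP_2b5695_lc.RandomOracle

open MeasureTheory Pool.Agent.Lib.MP_2b5695_lc.Alg

theorem result :
    ∀ᵐ ω ∂(Measure.infinitePi fun _ : List Bool => (PMF.uniformOfFintype Bool).toMeasure),
      ∀ i : ℕ, ∃ (C : ℕ → ℕ → Prop) (ρ : ℕ → ℕ),
        OptProblem (ι := .word) {w | ω w = true} i C ρ ∧
          ¬ Computed (ι := .word) {w | ω w = true} i C ρ :=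
  Pool.Agent.Lib.MP_2b5695_lc.RO.all_levels

end Pool.Agent.Results.MP_2b5695_lc.RandomOracle
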